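import Mathlib
import Pool.Agent.Helper450.ET.Fin

/-!
# The number of symbols of an ETOL system bounds the languages which are its inverse images
-/

set_option autoImplicit false

namespace Pool.Agent.Y551.EL

open Pool.Agent.Helper450.ET

/-- The proof of `no_hardest_core` for one homomorphism. -/
theorem core {α₀ : Type} [Finite α₀] (G : ETOL α₀) (k : ℕ)
    (hk' : Nat.card (α₀ ⊕ G.ν) = k)
    (h : Del (k + 2) → List α₀) : LN (k + 2) ≠ {w | w.flatMap h ∈ G.lang} := by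
  classical
  intro hL
  have hfin := G.finν
  have : Fintype (α₀ ⊕ G.ν) := Fintype.ofFinite _
  have hk : k = Fintype.card (α₀ ⊕ G.ν) := by rw [← hk', Nat.card_eq_fintype_card]
  have hne := LN_h_ne (k + 2) G.lang h hL
  obtain ⟨ρ, R, hR⟩ := interface G h hne (LN (k + 2)) hL
  obtain ⟨F, hF, hpre⟩ := pre_fin h
  obtain ⟨C, hC⟩ : ∃ C, ∀ e, (h e).length ≤ C := by
    have : Fintype (Del (k + 2)) := Fintype.ofFinite _
    refine ⟨∑ e : Del (k + 2), (h e).length, fun e => ?_⟩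
    exact Finset.single_le_sum (f := fun e => (h e).length) (fun _ _ => Nat.zero_le _)
      (Finset.mem_univ e)
  generalize hKT : F.ncard * Nat.card (α₀ ⊕ G.ν) * F.ncard = KT
  generalize hKL : RR (k + 2) + 1 + RR (k + 2) * KT = KL
  generalize hQ : 3 * 2 ^ (k + 1) - 1 = Q
  -- linear functions of e
  let lamf : ℕ → ℕ := fun e => 2 * (e * Q) + (k + 2) + 2
  let δf : ℕ → ℕ := fun e => KL * (2 * (2 + 2 * RR (k + 2) + e * Q) + KT + 1) +
    KT * ((2 * (k + 2) + 2) * lamf e + 1) + 1 + ρ * lamf e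
  let big : ℕ → ℕ := fun e => ((k + 1) * (F.ncard * F.ncard * 2)) * (2 * δf e + 2 * KL) +
    (6 * C + 1) + 6 * C * (KL * ρ * lamf e) + (2 * δf e + 2 * KL + KL * ρ * lamf e + lamf e + 4)
  obtain ⟨e, he1, he⟩ : ∃ e, 1 ≤ e ∧ big e < 2 ^ e := by
    obtain ⟨a, b, hab⟩ : ∃ a b, ∀ e, big e = a * e + b := by
      refine ⟨(((k + 1) * (F.ncard * F.ncard * 2)) * (2 * (KL * (2 * Q) +
          KT * ((2 * (k + 2) + 2) * (2 * Q)) + ρ * (2 * Q))) + 6 * C * (KL * ρ * (2 * Q)) +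
          (2 * (KL * (2 * Q) + KT * ((2 * (k + 2) + 2) * (2 * Q)) + ρ * (2 * Q)) +
            KL * ρ * (2 * Q) + 2 * Q)), big 0, fun e => ?_⟩
      simp only [big, δf, lamf]
      ring
    obtain ⟨e, h1, h2⟩ := exists_big a b
    exact ⟨e, h1, by rw [hab]; exact h2⟩
  obtain ⟨⟨N, M, Sc, lab, a1, a2, a3, a4, a5, a6, a7⟩, hPN, hPM, hPS⟩ := exists_par k e
  dsimp only at hPN hPM hPS
  subst hPN
  exact final_num ⟨k + 2, M, Sc, lab, a1, a2, a3, a4, a5, a6, a7⟩ h hne ρ C (lamf e) (δf e) KL KT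
    k e Q hC F hF hpre hKT.symm hKL.symm R hR hk.symm rfl hQ.symm hPM hPS rfl rfl he

end Pool.Agent.Y551.EL
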