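import Mathlib
import Pool.Agent.Helper450.ET.Core

/-!
# ETOL systems with additional symbols; right-linear systems and codes
-/

set_option autoImplicit false

namespace Pool.Agent.Y551.EL

open Pool.Agent.Helper450.ET

section pad

variable {α : Type} {ν : Type}

/-- the embedding of the symbols -/
def io (r : ℕ) : α ⊕ ν → α ⊕ (ν ⊕ Fin r) := Sum.map id Sum.inl

theorem io_inj (r : ℕ) : Function.Injective (io r : α ⊕ ν → α ⊕ (ν ⊕ Fin r)) :=
  Sum.map_injective.2 ⟨Function.injective_id, Sum.inl_injective⟩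

/-- the table with `r` further nonterminals -/
def padTab (r : ℕ) (f : α ⊕ ν → Set (List (α ⊕ ν))) :
    α ⊕ (ν ⊕ Fin r) → Set (List (α ⊕ (ν ⊕ Fin r)))
  | Sum.inl a => (List.map (io r)) '' f (Sum.inl a)
  | Sum.inr (Sum.inl X) => (List.map (io r)) '' f (Sum.inr X)
  | Sum.inr (Sum.inr _) => {[]}

theorem pad_tab (r : ℕ) (f : α ⊕ ν → Set (List (α ⊕ ν))) (s : α ⊕ ν) :
    padTab r f (io r s) = (List.map (io r)) '' f s := by
  rcases s with a | X <;> rfl

theorem step_pad (r : ℕ) (f : α ⊕ ν → Set (List (α ⊕ ν))) (u : List (α ⊕ ν))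
    (v : List (α ⊕ (ν ⊕ Fin r))) :
    Step (padTab r f) (u.map (io r)) v ↔ ∃ v₀, v = v₀.map (io r) ∧ Step f u v₀ := by
  induction u generalizing v with
  | nil =>
    constructor
    · rintro ⟨l, h1, rfl⟩
      cases h1
      exact ⟨[], rfl, [], List.Forall₂.nil, rfl⟩
    · rintro ⟨v₀, rfl, l, h1, rfl⟩
      cases h1
      exact ⟨[], List.Forall₂.nil, rfl⟩
  | cons s u ih =>
    constructor
    · rintro ⟨l, h1, rfl⟩
      rw [List.map_cons] at h1
      cases h1 with
      | @cons _ x _ l h2 h3 =>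
        rw [pad_tab] at h2
        obtain ⟨x₀, hx, rfl⟩ := h2
        obtain ⟨v₀, hv, l₀, h4, rfl⟩ := (ih _).1 ⟨l, h3, rfl⟩
        refine ⟨x₀ ++ l₀.flatten, ?_, x₀ :: l₀, List.Forall₂.cons hx h4, ?_⟩
        · rw [List.flatten_cons, hv, List.map_append]
        · rw [List.flatten_cons]
    · rintro ⟨v₀, rfl, l, h1, rfl⟩
      cases h1 with
      | @cons _ x _ l h2 h3 =>
        obtain ⟨l', h4, h5⟩ := (ih _).2 ⟨l.flatten, rfl, l, h3, rfl⟩
        refine ⟨x.map (io r) :: l', ?_, ?_⟩
        · rw [List.map_cons]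
          exact List.Forall₂.cons (by rw [pad_tab]; exact ⟨x, h2, rfl⟩) h4
        · rw [List.flatten_cons, List.flatten_cons, List.map_append, h5]

theorem derives_pad (r : ℕ) {T : Type} (tab : T → α ⊕ ν → Set (List (α ⊕ ν))) (ts : List T)
    (u : List (α ⊕ ν)) (v : List (α ⊕ (ν ⊕ Fin r))) :
    Derives (fun t => padTab r (tab t)) ts (u.map (io r)) v ↔
      ∃ v₀, v = v₀.map (io r) ∧ Derives tab ts u v₀ := by
  induction ts generalizing u with
  | nil =>
    constructor
    · intro h
      exact ⟨u, h, rfl⟩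
    · rintro ⟨v₀, rfl, h⟩
      have h' : v₀ = u := h
      rw [h']
      rfl
  | cons t ts ih =>
    constructor
    · rintro ⟨m, h1, h2⟩
      obtain ⟨m₀, rfl, h3⟩ := (step_pad r (tab t) u m).1 h1
      obtain ⟨v₀, h4, h5⟩ := (ih m₀).1 h2
      exact ⟨v₀, h4, m₀, h3, h5⟩
    · rintro ⟨v₀, rfl, m, h1, h2⟩
      exact ⟨m.map (io r), (step_pad r (tab t) u _).2 ⟨m, rfl, h1⟩, (ih m).2 ⟨v₀, rfl, h2⟩⟩

/-- the system with `r` further nonterminals, which do not occur -/
def pad (G : ETOL α) (r : ℕ) : ETOL α where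
  ν := G.ν ⊕ Fin r
  T := G.T
  finν := by have := G.finν; infer_instance
  finT := G.finT
  tab := fun t => padTab r (G.tab t)
  tab_fin := by
    rintro t (a | X | i)
    · exact (G.tab_fin t _).image _
    · exact (G.tab_fin t _).image _
    · exact Set.finite_singleton _
  tab_ne := by
    rintro t (a | X | i)
    · exact (G.tab_ne t _).image _
    · exact (G.tab_ne t _).image _
    · exact Set.singleton_nonempty _
  axm := G.axm.map (io r)

theorem pad_lang (G : ETOL α) (r : ℕ) : (pad G r).lang = G.lang := by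
  have key : ∀ (w : List α) (v : List (α ⊕ G.ν)),
      w.map (Sum.inl : α → α ⊕ (G.ν ⊕ Fin r)) = v.map (io r) ↔ v = w.map Sum.inl := by
    intro w v
    have e : w.map (Sum.inl : α → α ⊕ (G.ν ⊕ Fin r)) = (w.map Sum.inl).map (io r) := by
      rw [List.map_map]
      rfl
    rw [e]
    constructor
    · intro h
      exact (List.map_injective_iff.2 (io_inj r) h).symm
    · rintro rfl
      rfl
  ext w
  constructor
  · rintro ⟨ts, h⟩
    obtain ⟨v₀, h1, h2⟩ := (derives_pad r G.tab ts G.axm _).1 h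
    rw [(key w v₀).1 h1] at h2
    exact ⟨ts, h2⟩
  · rintro ⟨ts, h⟩
    exact ⟨ts, (derives_pad r G.tab ts G.axm _).2 ⟨_, (key w _).2 rfl, h⟩⟩

end pad

/-- The tables are deterministic, terminal letters are constants, and each table replaces a
nonterminal by a terminal word, followed by at most one nonterminal. -/
def RightLinear {α : Type} (G : ETOL α) : Prop :=
  (∀ t a, G.tab t (Sum.inl a) = {[Sum.inl a]}) ∧
  ∀ (t : G.T) (X : G.ν), ∃ (u : List α) (Y : Option G.ν),
    G.tab t (Sum.inr X) = {u.map Sum.inl ++ Y.toList.map Sum.inr}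

section code

variable {α β ν : Type}

/-- a homomorphism on the terminal letters -/
def cc (c : α → List β) : α ⊕ ν → List (β ⊕ ν)
  | Sum.inl a => (c a).map Sum.inl
  | Sum.inr X => [Sum.inr X]

theorem cc_inl (c : α → List β) (w : List α) :
    (w.map (Sum.inl : α → α ⊕ ν)).flatMap (cc c) = (w.flatMap c).map Sum.inl := by
  induction w with
  | nil => rfl
  | cons a w ih => rw [List.map_cons, List.flatMap_cons, ih, List.flatMap_cons, List.map_append]; rfl

/-- the image of a table under a homomorphism -/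
def codeTab (c : α → List β) (f : α ⊕ ν → Set (List (α ⊕ ν))) : β ⊕ ν → Set (List (β ⊕ ν))
  | Sum.inl b => {[Sum.inl b]}
  | Sum.inr X => (fun x => x.flatMap (cc c)) '' f (Sum.inr X)

/-- the image of a system under a homomorphism -/
def codeSys (c : α → List β) (G : ETOL α) : ETOL β where
  ν := G.ν
  T := G.T
  finν := G.finν
  finT := G.finT
  tab := fun t => codeTab c (G.tab t)
  tab_fin := by
    rintro t (a | X)
    · exact Set.finite_singleton _
    · exact (G.tab_fin t _).image _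
  tab_ne := by
    rintro t (a | X)
    · exact Set.singleton_nonempty _
    · exact (G.tab_ne t _).image _
  axm := G.axm.flatMap (cc c)

theorem codeSys_rl (c : α → List β) (G : ETOL α) (hG : RightLinear G) :
    RightLinear (codeSys c G) := by
  refine ⟨fun t a => rfl, fun t X => ?_⟩
  obtain ⟨u, Y, h⟩ := hG.2 t X
  refine ⟨u.flatMap c, Y, ?_⟩
  show (fun x => x.flatMap (cc c)) '' G.tab t (Sum.inr X) = _
  rw [h, Set.image_singleton]
  congr 1
  show (u.map Sum.inl ++ Y.toList.map Sum.inr).flatMap (cc c) = _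
  rw [List.flatMap_append, cc_inl]
  congr 1
  cases Y with
  | none => rfl
  | some y => rfl

theorem step_nil {S : Type} (f : S → Set (List S)) (v : List S) : Step f [] v ↔ v = [] := by
  constructor
  · rintro ⟨l, h, rfl⟩
    cases h
    rfl
  · rintro rfl
    exact ⟨[], List.Forall₂.nil, rfl⟩

theorem step_append {S : Type} (f : S → Set (List S)) (u u' v : List S) :
    Step f (u ++ u') v ↔ ∃ x y, v = x ++ y ∧ Step f u x ∧ Step f u' y := by
  induction u generalizing v with
  | nil =>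
    rw [List.nil_append]
    constructor
    · intro h
      exact ⟨[], v, rfl, (step_nil f _).2 rfl, h⟩
    · rintro ⟨x, y, rfl, h1, h2⟩
      rw [step_nil] at h1
      subst h1
      exact h2
  | cons s u ih =>
    constructor
    · rintro ⟨l, h, rfl⟩
      rw [List.cons_append] at h
      cases h with
      | @cons _ x _ l h2 h3 =>
        obtain ⟨x', y', h4, ⟨l', h5, rfl⟩, h6⟩ := (ih _).1 ⟨l, h3, rfl⟩
        refine ⟨x ++ l'.flatten, y', ?_, ⟨x :: l', List.Forall₂.cons h2 h5, ?_⟩, h6⟩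
        · rw [List.flatten_cons, h4, List.append_assoc]
        · rw [List.flatten_cons]
    · rintro ⟨x, y, rfl, ⟨l, h1, rfl⟩, h2⟩
      cases h1 with
      | @cons _ x _ l h3 h4 =>
        obtain ⟨l', h5, h6⟩ := (ih (l.flatten ++ y)).2 ⟨l.flatten, y, rfl, ⟨l, h4, rfl⟩, h2⟩
        refine ⟨x :: l', List.Forall₂.cons h3 h5, ?_⟩
        rw [List.flatten_cons, List.flatten_cons, List.append_assoc, h6]

theorem step_single {S : Type} (f : S → Set (List S)) (s : S) (v : List S) :
    Step f [s] v ↔ v ∈ f s := by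
  constructor
  · rintro ⟨l, h, rfl⟩
    cases h with
    | @cons _ x _ l h2 h3 =>
      cases h3
      simpa using h2
  · intro h
    exact ⟨[v], List.Forall₂.cons h List.Forall₂.nil, by simp⟩

theorem step_inl (w : List β) (v : List (β ⊕ ν))
    (f : β ⊕ ν → Set (List (β ⊕ ν))) (hf : ∀ b, f (Sum.inl b) = {[Sum.inl b]}) :
    Step f (w.map Sum.inl) v ↔ v = w.map Sum.inl := by
  induction w generalizing v with
  | nil => exact step_nil f v
  | cons a w ih =>
    rw [List.map_cons, ← List.singleton_append, step_append]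
    constructor
    · rintro ⟨x, y, rfl, h1, h2⟩
      rw [step_single, hf] at h1
      rw [ih] at h2
      rw [h2, h1]
    · rintro rfl
      exact ⟨[Sum.inl a], w.map Sum.inl, rfl, (step_single _ _ _).2 (by rw [hf]; rfl),
        (ih _).2 rfl⟩

theorem step_code (c : α → List β) (f : α ⊕ ν → Set (List (α ⊕ ν)))
    (hf : ∀ a, f (Sum.inl a) = {[Sum.inl a]}) (u : List (α ⊕ ν)) (v : List (β ⊕ ν)) :
    Step (codeTab c f) (u.flatMap (cc c)) v ↔
      ∃ v₀, v = v₀.flatMap (cc c) ∧ Step f u v₀ := by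
  induction u generalizing v with
  | nil =>
    rw [List.flatMap_nil, step_nil]
    constructor
    · rintro rfl
      exact ⟨[], rfl, (step_nil _ _).2 rfl⟩
    · rintro ⟨v₀, rfl, h⟩
      rw [step_nil] at h
      rw [h]
      rfl
  | cons s u ih =>
    have one : ∀ x : List (β ⊕ ν), Step (codeTab c f) (cc c s) x ↔
        ∃ x₀, x = x₀.flatMap (cc c) ∧ x₀ ∈ f s := by
      intro x
      rcases s with a | X
      · show Step (codeTab c f) ((c a).map Sum.inl) x ↔ _
        rw [step_inl _ _ _ (fun b => rfl), hf]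
        constructor
        · rintro rfl
          exact ⟨[Sum.inl a], by simp [cc], rfl⟩
        · rintro ⟨x₀, rfl, h⟩
          have h' : x₀ = [Sum.inl a] := h
          rw [h']
          simp [cc]
      · show Step (codeTab c f) [Sum.inr X] x ↔ _
        rw [step_single]
        show x ∈ (fun x => x.flatMap (cc c)) '' f (Sum.inr X) ↔ _
        constructor
        · rintro ⟨x₀, h1, rfl⟩
          exact ⟨x₀, rfl, h1⟩
        · rintro ⟨x₀, rfl, h1⟩
          exact ⟨x₀, h1, rfl⟩
    rw [List.flatMap_cons, step_append]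
    constructor
    · rintro ⟨x, y, rfl, h1, h2⟩
      obtain ⟨x₀, rfl, h3⟩ := (one x).1 h1
      obtain ⟨y₀, rfl, h4⟩ := (ih y).1 h2
      refine ⟨x₀ ++ y₀, by rw [List.flatMap_append], ?_⟩
      rw [← List.singleton_append, step_append]
      exact ⟨x₀, y₀, rfl, (step_single _ _ _).2 h3, h4⟩
    · rintro ⟨v₀, rfl, h⟩
      rw [← List.singleton_append, step_append] at h
      obtain ⟨x₀, y₀, rfl, h3, h4⟩ := h
      rw [step_single] at h3
      exact ⟨x₀.flatMap (cc c), y₀.flatMap (cc c), by rw [List.flatMap_append],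
        (one _).2 ⟨x₀, rfl, h3⟩, (ih _).2 ⟨y₀, rfl, h4⟩⟩

theorem derives_code (c : α → List β) {T : Type} (tab : T → α ⊕ ν → Set (List (α ⊕ ν)))
    (hG : ∀ t a, tab t (Sum.inl a) = {[Sum.inl a]})
    (ts : List T) (u : List (α ⊕ ν)) (v : List (β ⊕ ν)) :
    Derives (fun t => codeTab c (tab t)) ts (u.flatMap (cc c)) v ↔
      ∃ v₀, v = v₀.flatMap (cc c) ∧ Derives tab ts u v₀ := by
  induction ts generalizing u with
  | nil =>
    constructor
    · intro h
      exact ⟨u, h, rfl⟩
    · rintro ⟨v₀, rfl, h⟩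
      have h' : v₀ = u := h
      rw [h']
      rfl
  | cons t ts ih =>
    constructor
    · rintro ⟨m, h1, h2⟩
      obtain ⟨m₀, rfl, h3⟩ := (step_code c (tab t) (hG t) u m).1 h1
      obtain ⟨v₀, h4, h5⟩ := (ih m₀).1 h2
      exact ⟨v₀, h4, m₀, h3, h5⟩
    · rintro ⟨v₀, rfl, m, h1, h2⟩
      exact ⟨m.flatMap (cc c), (step_code c (tab t) (hG t) u _).2 ⟨m, rfl, h1⟩,
        (ih m).2 ⟨v₀, rfl, h2⟩⟩

theorem term_of_code (c : α → List β) (v : List (α ⊕ ν)) (w : List β)
    (h : w.map Sum.inl = v.flatMap (cc c)) : ∃ w₀ : List α, v = w₀.map Sum.inl := by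
  induction v generalizing w with
  | nil => exact ⟨[], rfl⟩
  | cons s v ih =>
    rw [List.flatMap_cons] at h
    rcases s with a | X
    · have h1 : w.map (Sum.inl : β → β ⊕ ν) =
          ((c a).map Sum.inl) ++ v.flatMap (cc c) := h
      obtain ⟨w1, w2, rfl, h2, h3⟩ := List.map_eq_append_iff.1 h1
      obtain ⟨w₀, rfl⟩ := ih w2 h3
      exact ⟨a :: w₀, rfl⟩
    · exfalso
      have h1 : (Sum.inr X : β ⊕ ν) ∈ w.map (Sum.inl : β → β ⊕ ν) := by
        rw [h]
        exact List.mem_append_left _ (List.mem_singleton.2 rfl)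
      simp at h1

theorem code_lang (c : α → List β) (G : ETOL α)
    (hG : ∀ t a, G.tab t (Sum.inl a) = {[Sum.inl a]}) :
    (codeSys c G).lang = {w | ∃ w₀ ∈ G.lang, w = w₀.flatMap c} := by
  ext w
  constructor
  · rintro ⟨ts, h⟩
    obtain ⟨v₀, h1, h2⟩ := (derives_code c G.tab hG ts G.axm _).1 h
    obtain ⟨w₀, rfl⟩ := term_of_code c v₀ w h1
    rw [cc_inl] at h1
    exact ⟨w₀, ⟨ts, h2⟩, List.map_injective_iff.2 Sum.inl_injective h1⟩
  · rintro ⟨w₀, ⟨ts, h⟩, rfl⟩
    exact ⟨ts, (derives_code c G.tab hG ts G.axm _).2 ⟨_, (cc_inl c w₀).symm, h⟩⟩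

end code

end Pool.Agent.Y551.EL
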