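import Pool.Agent.Y551.EL.Core
import Pool.Agent.Y551.EL.Pad

/-!
# Small classes of ETOL languages without a hardest language among the ETOL languages
-/

set_option autoImplicit false

namespace Pool.Agent.Y551.EL

open Pool.Agent.Helper450.ET

/-- a prefix code -/
def pc {m : ℕ} (i : Fin m) : List Bool := List.replicate (i : ℕ) true ++ [false]

theorem pc_cancel (a b : ℕ) (x y : List Bool)
    (h : List.replicate a true ++ false :: x = List.replicate b true ++ false :: y) :
    a = b ∧ x = y := by
  induction a generalizing b with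
  | zero =>
    cases b with
    | zero => simpa using h
    | succ b => simp [List.replicate_succ] at h
  | succ a ih =>
    cases b with
    | zero => simp [List.replicate_succ] at h
    | succ b =>
      rw [List.replicate_succ, List.replicate_succ, List.cons_append, List.cons_append] at h
      obtain ⟨h1, h2⟩ := ih b (List.cons.inj h).2
      exact ⟨by omega, h2⟩

theorem pc_inj {m : ℕ} (w w' : List (Fin m)) (h : w.flatMap pc = w'.flatMap pc) : w = w' := by
  induction w generalizing w' with
  | nil =>
    cases w' with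
    | nil => rfl
    | cons b w' => simp [pc] at h
  | cons a w ih =>
    cases w' with
    | nil => simp [pc] at h
    | cons b w' =>
      rw [List.flatMap_cons, List.flatMap_cons] at h
      unfold pc at h
      rw [List.append_assoc, List.append_assoc, List.singleton_append, List.singleton_append] at h
      obtain ⟨h1, h2⟩ := pc_cancel _ _ _ _ h
      rw [Fin.ext h1, ih w' h2]

/-- a binary code for a finite type -/
noncomputable def co (α : Type) [Finite α] (a : α) : List Bool :=
  pc (Finite.equivFin α a)

theorem co_inj (α : Type) [Finite α] (w w' : List α) (h : w.flatMap (co α) = w'.flatMap (co α)) :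
    w = w' := by
  have e : ∀ u : List α, u.flatMap (co α) = (u.map (Finite.equivFin α)).flatMap pc := by
    intro u
    rw [List.flatMap_map]
    rfl
  rw [e, e] at h
  exact List.map_injective_iff.2 (Finite.equivFin α).injective (pc_inj _ _ h)

theorem G_rl {N : ℕ} (hN : 1 ≤ N) : RightLinear (G_7477 hN) := by
  refine ⟨fun t a => rfl, fun t (c : Fin N) => ?_⟩
  rcases t with _ | g
  · exact ⟨[], none, rfl⟩
  · by_cases h : (g.1 : ℕ) ≤ (c : ℕ)
    · refine ⟨[some g], some c, ?_⟩
      show ({img_7477 (some g) (Sum.inr c)} : Set (List (Del N ⊕ Fin N))) =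
        {[Sum.inl (some g), Sum.inr c]}
      have e : img_7477 (some g) (Sum.inr c) =
          ([Sum.inl (some g), Sum.inr c] : List (Del N ⊕ Fin N)) := if_pos h
      rw [e]
    · refine ⟨[], some c, ?_⟩
      show ({img_7477 (some g) (Sum.inr c)} : Set (List (Del N ⊕ Fin N))) = {[Sum.inr c]}
      have e : img_7477 (some g) (Sum.inr c) =
          ([Sum.inr c] : List (Del N ⊕ Fin N)) := if_neg h
      rw [e]

theorem G_lang {N : ℕ} (hN : 1 ≤ N) : (G_7477 hN).lang = LN N := by
  ext w
  constructor
  · rintro ⟨ts, hts⟩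
    have h1 := (derives_iff_7477 ts _ _).1 hts
    exact D_sub_7477 hN ts [] w h1
  · rintro ⟨E, rfl⟩
    refine ⟨E.map some ++ [none], ?_⟩
    have h1 : (WE N E).map Sum.inl = D_7477 (E.map some ++ [none]) (X_7477 hN []) := by
      rw [D_append_7477, D_some_7477, List.nil_append]
      exact (X_none_7477 hN E).symm
    exact (derives_iff_7477 _ _ _).2 h1

/-- the witness over the two-letter alphabet -/
noncomputable def BG (k : ℕ) : ETOL Bool := codeSys (co (Del (k + 2))) (G_7477 (N := k + 2) (by omega))

theorem BG_rl (k : ℕ) : RightLinear (BG k) := codeSys_rl _ _ (G_rl _)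

theorem BG_lang (k : ℕ) :
    (BG k).lang = {w | ∃ w₀ ∈ LN (k + 2), w = w₀.flatMap (co (Del (k + 2)))} := by
  unfold BG
  rw [code_lang _ _ (G_rl _).1, G_lang]

theorem BG_nil (k : ℕ) : ([] : List Bool) ∉ (BG k).lang := by
  rw [BG_lang]
  rintro ⟨w₀, h1, h2⟩
  have h3 : w₀ = [] := co_inj _ _ _ (by rw [← h2]; rfl)
  rw [h3] at h1
  exact LN_nil _ h1

theorem BG_card (k : ℕ) : Nat.card (BG k).ν = k + 2 := by
  show Nat.card (Fin (k + 2)) = k + 2
  simp

theorem BG_index (k : ℕ) : (BG k).axm.countP Sum.isRight = 2 * k + 7 := by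
  show ((X_7477 (N := k + 2) (by omega) []).flatMap (cc (co (Del (k + 2))))).countP Sum.isRight
    = 2 * k + 7
  have e1 : ∀ w : List Bool,
      ((w.map Sum.inl : List (Bool ⊕ Fin (k + 2)))).countP Sum.isRight = 0 := by
    intro w
    rw [List.countP_eq_zero]
    intro x hx
    obtain ⟨b, -, rfl⟩ := List.mem_map.1 hx
    simp
  have e2 : ∀ l : List ℕ, (((l.flatMap (fun j =>
      (([] : List (Fin (k + 2) × Bool)).filter
        (fun g => decide ((g.1 : ℕ) ≤ kap (k + 2) j))).map
          (fun g => (Sum.inl (some g) : Del (k + 2) ⊕ Fin (k + 2))) ++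
      [Sum.inr (K_7477 (N := k + 2) (by omega) j), Sum.inl none])).flatMap
        (cc (co (Del (k + 2)))))).countP Sum.isRight = l.length := by
    intro l
    induction l with
    | nil => rfl
    | cons a l ih =>
      rw [List.flatMap_cons, List.flatMap_append, List.countP_append, ih, List.length_cons,
        add_comm]
      congr 1
      simp only [List.filter_nil, List.map_nil, List.nil_append, List.flatMap_cons,
        List.flatMap_nil, List.append_nil, cc, List.countP_append, e1]
      rfl
  unfold X_7477
  rw [List.flatMap_cons, List.countP_append, e2, List.length_range]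
  show ((co (Del (k + 2)) none).map Sum.inl).countP Sum.isRight + RR (k + 2) = _
  rw [e1]
  unfold RR
  omega

/-- The language of `BG k` is not an inverse homomorphic image of the language of an ETOL system
with at most `k` symbols. -/
theorem main (k : ℕ) (α₀ : Type) [Finite α₀] (G : ETOL α₀) (hG : Nat.card (α₀ ⊕ G.ν) ≤ k)
    (h : Bool → List α₀) : (BG k).lang ≠ {w | w.flatMap h ∈ G.lang} := by
  intro hL
  have hfin := G.finν
  obtain ⟨r, hr⟩ := Nat.exists_eq_add_of_le hG
  have hcard : Nat.card (α₀ ⊕ (pad G r).ν) = k := by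
    show Nat.card (α₀ ⊕ (G.ν ⊕ Fin r)) = k
    rw [Nat.card_sum, Nat.card_sum, hr, Nat.card_sum]
    simp
    omega
  refine core (pad G r) k hcard (fun d => (co (Del (k + 2)) d).flatMap h) ?_
  rw [pad_lang]
  ext w
  have e : w.flatMap (fun d => (co (Del (k + 2)) d).flatMap h) =
      (w.flatMap (co (Del (k + 2)))).flatMap h := by
    rw [List.flatMap_assoc]
  have h1 : w ∈ LN (k + 2) ↔ w.flatMap (co (Del (k + 2))) ∈ (BG k).lang := by
    rw [BG_lang]
    constructor
    · intro hw
      exact ⟨w, hw, rfl⟩
    · rintro ⟨w₀, hw, h2⟩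
      rw [co_inj _ _ _ h2]
      exact hw
  rw [h1, hL]
  show (w.flatMap (co (Del (k + 2)))).flatMap h ∈ G.lang ↔
    w.flatMap (fun d => (co (Del (k + 2)) d).flatMap h) ∈ G.lang
  rw [e]

end Pool.Agent.Y551.EL
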